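import Pool.Agent.H671R2.OrdFinal

/-!
# Recognising the graphs with a Type-B vertex order is NP-complete

The reduction is from satisfiability.  A literal is represented by a vertex, two complementary
literals are adjacent; a clause by a vertex with a triangle and one leaf for each of its literals;
a leaf and its literal are joined by an OR gadget: a complete graph on four vertices and one more
vertex, all of degree four.  Finally a complete graph on four vertices is attached to every vertex,
which makes the two types of orders equivalent.
-/

namespace Pool.Agent.Results.MP_e5cbc1_lc.TypeBNPComplete

open Pool.Agent.NPC Pool.Agent.H671R2.Ord

/-- **Recognition of graphs with a Type-B order.** The problem whether a given graph admits a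
Type-B order is in `NP` and `NP`-hard; and there is a polynomial-time algorithm which decides, for
every graph, whether it admits a Type-B order, if and only if `P = NP`. -/
theorem result : (InNPP AdmitsB ∧ NPHardP AdmitsB) ∧ (RecognisableB ↔ PEqNP) :=
  ⟨⟨inNPP_B, hardI_B.toNPHardP⟩, recognisableB_iff⟩

end Pool.Agent.Results.MP_e5cbc1_lc.TypeBNPComplete
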